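import Pool.Agent.Y979.HV.Defs

/-!
# Thin triangles with one fixed vertex: definitions
-/

set_option autoImplicit false

namespace Pool.Agent.Y979.HT

/-- The triangle with sides `p`, `q`, `r` is `δ`-thin: each side is contained in the closed
`δ`-neighbourhood of the union of the two other sides. -/
def ThinTriangle {V : Type*} (G : SimpleGraph V) (δ : ℝ) {x y z : V} (p : G.Walk x y)
    (q : G.Walk y z) (r : G.Walk z x) : Prop :=
  (∀ u ∈ p.support, ∃ w, (w ∈ q.support ∨ w ∈ r.support) ∧ (G.dist u w : ℝ) ≤ δ) ∧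
  (∀ u ∈ q.support, ∃ w, (w ∈ r.support ∨ w ∈ p.support) ∧ (G.dist u w : ℝ) ≤ δ) ∧
  (∀ u ∈ r.support, ∃ w, (w ∈ p.support ∨ w ∈ q.support) ∧ (G.dist u w : ℝ) ≤ δ)

/-- every geodesic triangle having `x` as one of its vertices is `δ`-thin -/
def AnchoredThin {V : Type*} (G : SimpleGraph V) (x : V) (δ : ℝ) : Prop :=
  ∀ (y z : V) (p : G.Walk x y) (q : G.Walk y z) (r : G.Walk z x),
    p.length = G.dist x y → q.length = G.dist y z → r.length = G.dist z x →
    ThinTriangle G δ p q r

end Pool.Agent.Y979.HT
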