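import Pool.Agent.Y979.HT.Defs

/-!
# Anchored thin triangles imply Gromov hyperbolicity

If every geodesic triangle with the vertex `x` is thin, then the four point condition holds, and
paths that avoid a large ball around a point of a geodesic are exponentially long.
-/

set_option autoImplicit false

namespace Pool.Agent.Y979.HT

variable {V : Type*} {G : SimpleGraph V}

theorem geod_split (hG : G.Connected) {u v : V} {p : G.Walk u v} (hp : p.length = G.dist u v)
    {w : V} (hw : w ∈ p.support) : G.dist u w + G.dist w v = G.dist u v := by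
  classical
  have h1 := hG.dist_triangle (u := u) (v := w) (w := v)
  have h2 := SimpleGraph.dist_le (p.takeUntil w hw)
  have h3 := SimpleGraph.dist_le (p.dropUntil w hw)
  have h4 : (p.takeUntil w hw).length + (p.dropUntil w hw).length = p.length := by
    rw [← SimpleGraph.Walk.length_append, p.take_spec hw]
  omega

theorem geod_pair (hG : G.Connected) {u v : V} {p : G.Walk u v} (hp : p.length = G.dist u v)
    {a b : V} (ha : a ∈ p.support) (hb : b ∈ p.support) (hab : G.dist u a ≤ G.dist u b) :
    G.dist a b = G.dist u b - G.dist u a := by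
  classical
  -- `a` lies before `b` on the geodesic
  have hsb := geod_split hG hp hb
  have hsa := geod_split hG hp ha
  have h4 : (p.takeUntil b hb).length + (p.dropUntil b hb).length = p.length := by
    rw [← SimpleGraph.Walk.length_append, p.take_spec hb]
  have h2 := SimpleGraph.dist_le (p.takeUntil b hb)
  have h3 := SimpleGraph.dist_le (p.dropUntil b hb)
  have htk : (p.takeUntil b hb).length = G.dist u b := by omega
  have hdr : (p.dropUntil b hb).length = G.dist b v := by omega
  have hmem : a ∈ (p.takeUntil b hb).support ∨ a ∈ (p.dropUntil b hb).support := by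
    rw [← SimpleGraph.Walk.mem_support_append_iff, p.take_spec hb]
    exact ha
  rcases hmem with h | h
  · have := geod_split hG htk h
    omega
  · have e1 := geod_split hG hdr h
    have e2 := hG.dist_triangle (u := u) (v := b) (w := a)
    have e3 : G.dist a b = G.dist b a := SimpleGraph.dist_comm
    omega

/-- twice the Gromov product of `y` and `z` with respect to `x` -/
noncomputable def gp (G : SimpleGraph V) (x y z : V) : ℤ :=
  (G.dist x y : ℤ) + G.dist x z - G.dist y z

theorem gp_nonneg (hG : G.Connected) (x y z : V) : 0 ≤ gp G x y z := by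
  have h := hG.dist_triangle (u := y) (v := x) (w := z)
  have h1 : G.dist y x = G.dist x y := SimpleGraph.dist_comm
  unfold gp
  omega

theorem gp_comm (x y z : V) : gp G x y z = gp G x z y := by
  unfold gp
  have h1 : G.dist z y = G.dist y z := SimpleGraph.dist_comm
  rw [h1]
  ring

theorem fellow (hG : G.Connected) {x : V} {D : ℕ} (hx : AnchoredThin G x D) {y w : V}
    {p : G.Walk x y} (hp : p.length = G.dist x y) {r : G.Walk x w} (hr : r.length = G.dist x w)
    {t : ℕ} {a b : V} (ha : a ∈ p.support) (hat : G.dist x a = t) (hb : b ∈ r.support)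
    (hbt : G.dist x b = t) (ht : 2 * (t : ℤ) + 2 * D < gp G x y w) : G.dist a b ≤ 2 * D := by
  obtain ⟨q, hq⟩ := (hG y w).exists_walk_length_eq_dist
  have hthin := (hx y w p q r.reverse hp hq (by
    rw [SimpleGraph.Walk.length_reverse, hr, SimpleGraph.dist_comm])).1 a ha
  obtain ⟨u, hu, hau⟩ := hthin
  have hau' : G.dist a u ≤ D := by exact_mod_cast hau
  have hya := geod_split hG hp ha
  unfold gp at ht
  rcases hu with hu | hu
  · exfalso
    have e1 := geod_split hG hq hu
    have e2 := hG.dist_triangle (u := y) (v := u) (w := a)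
    have e3 := hG.dist_triangle (u := x) (v := a) (w := u)
    have e4 := hG.dist_triangle (u := x) (v := u) (w := w)
    have e5 : G.dist u a = G.dist a u := SimpleGraph.dist_comm
    have e6 : G.dist y a = G.dist a y := SimpleGraph.dist_comm
    omega
  · rw [SimpleGraph.Walk.support_reverse, List.mem_reverse] at hu
    have e3 := hG.dist_triangle (u := x) (v := a) (w := u)
    have e4 := hG.dist_triangle (u := x) (v := u) (w := a)
    have e5 : G.dist u a = G.dist a u := SimpleGraph.dist_comm
    have e6 := hG.dist_triangle (u := a) (v := u) (w := b)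
    rcases le_total (G.dist x u) (G.dist x b) with h | h
    · have e7 := geod_pair hG hr hu hb h
      omega
    · have e7 := geod_pair hG hr hb hu h
      have e8 : G.dist u b = G.dist b u := SimpleGraph.dist_comm
      omega

theorem exists_at_dist (hG : G.Connected) {x y : V} {p : G.Walk x y}
    (hp : p.length = G.dist x y) {t : ℕ} (ht : t ≤ G.dist x y) :
    ∃ a ∈ p.support, G.dist x a = t := by
  refine ⟨p.getVert t, p.getVert_mem_support t, ?_⟩
  have h1 := SimpleGraph.dist_le (p.take t)
  have h2 := SimpleGraph.dist_le (p.drop t)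
  rw [SimpleGraph.Walk.take_length] at h1
  rw [SimpleGraph.Walk.drop_length] at h2
  have h3 := hG.dist_triangle (u := x) (v := p.getVert t) (w := y)
  have h4 : t ⊓ p.length = t := by
    rw [hp]; exact Nat.min_eq_left ht
  omega

theorem gromov_at (hG : G.Connected) {x : V} {D : ℕ} (hx : AnchoredThin G x D) (y w z : V) :
    min (gp G x y w) (gp G x w z) - (6 * D + 2) ≤ gp G x y z := by
  have hnn := gp_nonneg hG x y z
  rcases le_or_gt (min (gp G x y w) (gp G x w z)) (2 * D) with h0 | h0
  · have : (0 : ℤ) ≤ D := Int.natCast_nonneg D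
    linarith
  · obtain ⟨T, hT1, hT2⟩ : ∃ T : ℕ, 2 * (T : ℤ) + 2 * D < min (gp G x y w) (gp G x w z) ∧
        min (gp G x y w) (gp G x w z) ≤ 2 * (T : ℤ) + 2 * D + 2 := by
      refine ⟨((min (gp G x y w) (gp G x w z) - 2 * D - 1) / 2).toNat, ?_, ?_⟩ <;> omega
    have hT3 : 2 * (T : ℤ) + 2 * D < gp G x y w := lt_of_lt_of_le hT1 (min_le_left _ _)
    have hT4 : 2 * (T : ℤ) + 2 * D < gp G x w z := lt_of_lt_of_le hT1 (min_le_right _ _)
    obtain ⟨p, hp⟩ := (hG x y).exists_walk_length_eq_dist
    obtain ⟨q, hq⟩ := (hG x w).exists_walk_length_eq_dist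
    obtain ⟨r, hr⟩ := (hG x z).exists_walk_length_eq_dist
    have t1 := hG.dist_triangle (u := x) (v := y) (w := w)
    have t2 := hG.dist_triangle (u := x) (v := w) (w := y)
    have t3 := hG.dist_triangle (u := x) (v := w) (w := z)
    have t4 := hG.dist_triangle (u := x) (v := z) (w := w)
    have c1 : G.dist w y = G.dist y w := SimpleGraph.dist_comm
    have c2 : G.dist z w = G.dist w z := SimpleGraph.dist_comm
    have hT3' := hT3
    have hT4' := hT4
    unfold gp at hT3' hT4'
    obtain ⟨a, ha, hat⟩ := exists_at_dist hG hp (t := T) (by omega)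
    obtain ⟨b, hb, hbt⟩ := exists_at_dist hG hq (t := T) (by omega)
    obtain ⟨c, hc, hct⟩ := exists_at_dist hG hr (t := T) (by omega)
    have f1 := fellow hG hx hp hq ha hat hb hbt hT3
    have f2 := fellow hG hx hq hr hb hbt hc hct hT4
    have s1 := geod_split hG hp ha
    have s2 := geod_split hG hr hc
    have d1 := hG.dist_triangle (u := y) (v := a) (w := z)
    have d2 := hG.dist_triangle (u := a) (v := b) (w := z)
    have d3 := hG.dist_triangle (u := b) (v := c) (w := z)
    have c3 : G.dist y a = G.dist a y := SimpleGraph.dist_comm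
    have hgoal : (2 * T : ℤ) - 4 * D ≤ gp G x y z := by
      unfold gp
      omega
    omega

/-- change of the base point -/
theorem gromov_all (hG : G.Connected) {x : V} {D : ℕ} (hx : AnchoredThin G x D) (m y w z : V) :
    min (gp G m y w) (gp G m w z) - 2 * (6 * D + 2) ≤ gp G m y z := by
  have a1 := gromov_at hG hx y w z
  have a2 := gromov_at hG hx y m z
  have a3 := gromov_at hG hx m y w
  have a4 := gromov_at hG hx m z w
  have e1 : gp G x w y = gp G x y w := gp_comm _ _ _
  have e2 : gp G x z w = gp G x w z := gp_comm _ _ _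
  have e3 : gp G x m y = gp G x y m := gp_comm _ _ _
  have e4 : gp G x m w = gp G x w m := gp_comm _ _ _
  have e5 : gp G x z m = gp G x m z := gp_comm _ _ _
  have k1 : gp G m y z = 2 * G.dist x m - gp G x m y - gp G x m z + gp G x y z := by
    unfold gp; ring
  have k2 : gp G m y w = 2 * G.dist x m - gp G x m y - gp G x m w + gp G x y w := by
    unfold gp; ring
  have k3 : gp G m w z = 2 * G.dist x m - gp G x m w - gp G x m z + gp G x w z := by
    unfold gp; ring
  rw [k1, k2, k3]
  omega

/-- paths between points with small Gromov product must come close -/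
theorem chain {m : V} {K : ℤ}
    (hK : ∀ y w z : V, min (gp G m y w) (gp G m w z) - K ≤ gp G m y z) {r : ℕ} (k : ℕ) :
    ∀ {u v : V} (c : G.Walk u v), c.length ≤ 2 ^ k → (∀ a ∈ c.support, r ≤ G.dist m a) →
      2 * (r : ℤ) - 1 - K * k ≤ gp G m u v := by
  have hK0 : 0 ≤ K := by
    have := hK m m m
    have h0 : gp G m m m = 0 := by simp [gp]
    rw [h0] at this
    simp at this
    exact this
  induction k with
  | zero =>
    intro u v c hc hr
    have h1 := SimpleGraph.dist_le c
    have h2 := hr u c.start_mem_support
    have h3 := hr v c.end_mem_support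
    unfold gp
    push_cast
    omega
  | succ k ih =>
    intro u v c hc hr
    have h1 : (c.take (2 ^ k)).length ≤ 2 ^ k := by
      rw [SimpleGraph.Walk.take_length]; exact Nat.min_le_left _ _
    have h2 : (c.drop (2 ^ k)).length ≤ 2 ^ k := by
      rw [SimpleGraph.Walk.drop_length]
      rw [pow_succ] at hc
      omega
    have hs1 : ∀ a ∈ (c.take (2 ^ k)).support, r ≤ G.dist m a := by
      intro a ha
      exact hr a ((c.isSubwalk_take (2 ^ k)).support_subset ha)
    have hs2 : ∀ a ∈ (c.drop (2 ^ k)).support, r ≤ G.dist m a := by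
      intro a ha
      exact hr a ((c.isSubwalk_drop (2 ^ k)).support_subset ha)
    have i1 := ih _ h1 hs1
    have i2 := ih _ h2 hs2
    have i3 := hK u (c.getVert (2 ^ k)) v
    push_cast
    have i4 : K * ((k : ℤ) + 1) = K * k + K := by ring
    rw [i4]
    omega

/-- the divergence bound for graphs with anchored thin triangles -/
theorem divergence (hG : G.Connected) {x : V} {D : ℕ} (hx : AnchoredThin G x D) {y z : V}
    {p : G.Walk y z} (hp : p.length = G.dist y z) {m : V} (hm : m ∈ p.support) {r k : ℕ}
    (c : G.Walk y z) (hc : c.length ≤ 2 ^ k) (hr : ∀ a ∈ c.support, r ≤ G.dist m a) :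
    2 * r ≤ 1 + 2 * (6 * D + 2) * k := by
  have h1 := chain (m := m) (K := 2 * (6 * D + 2)) (fun y w z => gromov_all hG hx m y w z) k c hc hr
  have h2 := geod_split hG hp hm
  have h3 : gp G m y z = 0 := by
    unfold gp
    have : G.dist m y = G.dist y m := SimpleGraph.dist_comm
    omega
  rw [h3] at h1
  have h4 : (2 * r : ℤ) ≤ 1 + 2 * (6 * D + 2) * k := by linarith
  exact_mod_cast h4

end Pool.Agent.Y979.HT
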