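import Pool.Agent.Y979.HT.Rect
import Pool.Agent.Y979.HT.Grom

/-!
# Flat pieces of the Voronoi graph

If a window at scale `Y` is divided into `N * N` small squares and each of them contains exactly
one point of `A`, then the Voronoi graph looks like a flat square grid inside the window.
-/

set_option autoImplicit false

open UpperHalfPlane Real Pool.Agent.Y979.HV

namespace Pool.Agent.Y979.HT

noncomputable section

/-- the window at scale `Y` -/
def win (Y : ℝ) : Set ℍ := box (Set.Ico 0 Y) Y (2 * Y)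

/-- the small squares of the window -/
def wbox (Y : ℝ) (N : ℕ) (ab : Fin N × Fin N) : Set ℍ :=
  box (Set.Ico ((ab.1 : ℕ) * (Y / N)) (((ab.1 : ℕ) + 1) * (Y / N))) (Y + (ab.2 : ℕ) * (Y / N))
    (Y + ((ab.2 : ℕ) + 1) * (Y / N))

/-- each small square contains exactly one point -/
def GridOK (A : Set ℍ) (Y : ℝ) (N : ℕ) : Prop :=
  ∀ ab : Fin N × Fin N, (A ∩ wbox Y N ab).encard = 1

/-- nearness in both coordinates -/
def nr (z w : ℍ) (t : ℝ) : Prop := |z.re - w.re| ≤ t ∧ |z.im - w.im| ≤ t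

theorem nr.symm {z w : ℍ} {t : ℝ} (h : nr z w t) : nr w z t := by
  unfold nr at *
  rw [abs_sub_comm w.re, abs_sub_comm w.im]
  exact h

theorem nr.trans {z w u : ℍ} {s t : ℝ} (h : nr z w s) (h' : nr w u t) : nr z u (s + t) := by
  constructor
  · exact (abs_sub_le _ _ _).trans (add_le_add h.1 h'.1)
  · exact (abs_sub_le _ _ _).trans (add_le_add h.2 h'.2)

theorem nr.mono {z w : ℍ} {s t : ℝ} (h : nr z w s) (hst : s ≤ t) : nr z w t :=
  ⟨h.1.trans hst, h.2.trans hst⟩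

theorem cosh_sub_one (z w : ℍ) : (Real.cosh (dist z w) - 1) * (2 * (z.im * w.im)) =
    (z.re - w.re) ^ 2 + (z.im - w.im) ^ 2 := by
  have hz := z.im_pos
  have hw := w.im_pos
  rw [cosh_dist_eq, norm_sq_eq, norm_sq_eq]
  field_simp
  ring

theorem exists_wbox {Y : ℝ} {N : ℕ} (hY : 0 < Y) (hN : 0 < N) {z : ℍ} (hz : z ∈ win Y) :
    ∃ ab : Fin N × Fin N, z ∈ wbox Y N ab := by
  obtain ⟨⟨h1, h2⟩, h3, h4⟩ := hz
  have hN' : (0 : ℝ) < N := by exact_mod_cast hN
  have hs : 0 < Y / N := by positivity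
  have hk : ∀ t : ℝ, 0 ≤ t → t < Y → ∃ a : Fin N, ((a : ℕ) : ℝ) * (Y / N) ≤ t ∧
      t < (((a : ℕ) : ℝ) + 1) * (Y / N) := by
    intro t ht0 ht1
    have e1 : ⌊t / (Y / N)⌋₊ < N := by
      rw [Nat.floor_lt (by positivity), div_lt_iff₀ hs]
      have : (N : ℝ) * (Y / N) = Y := by field_simp
      rw [this]; exact ht1
    refine ⟨⟨_, e1⟩, ?_, ?_⟩
    · rw [← le_div_iff₀ hs]
      exact Nat.floor_le (by positivity)
    · rw [← div_lt_iff₀ hs]
      exact Nat.lt_floor_add_one _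
  obtain ⟨a, ha1, ha2⟩ := hk z.re h1 h2
  obtain ⟨b, hb1, hb2⟩ := hk (z.im - Y) (by linarith) (by linarith)
  refine ⟨(a, b), ⟨ha1, ha2⟩, ?_, ?_⟩
  · show Y + ((b : ℕ) : ℝ) * (Y / N) ≤ z.im
    linarith
  · show z.im < Y + (((b : ℕ) : ℝ) + 1) * (Y / N)
    linarith

theorem wbox_subset_win {Y : ℝ} {N : ℕ} (hY : 0 < Y) (ab : Fin N × Fin N) :
    wbox Y N ab ⊆ win Y := by
  rintro z ⟨⟨h1, h2⟩, h3, h4⟩
  have hN : 0 < N := lt_of_le_of_lt (Nat.zero_le _) ab.1.2
  have hN' : (0 : ℝ) < N := by exact_mod_cast hN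
  have hs : 0 < Y / N := by positivity
  have e : (N : ℝ) * (Y / N) = Y := by field_simp
  have a1 : (((ab.1 : ℕ) : ℝ) + 1) ≤ N := by
    have := ab.1.2
    exact_mod_cast this
  have b1 : (((ab.2 : ℕ) : ℝ) + 1) ≤ N := by
    have := ab.2.2
    exact_mod_cast this
  have a2 := mul_le_mul_of_nonneg_right a1 hs.le
  have b2 := mul_le_mul_of_nonneg_right b1 hs.le
  have a3 : (0 : ℝ) ≤ ((ab.1 : ℕ) : ℝ) * (Y / N) := by positivity
  have b3 : (0 : ℝ) ≤ ((ab.2 : ℕ) : ℝ) * (Y / N) := by positivity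
  exact ⟨⟨by linarith, by linarith⟩, by linarith, by linarith⟩

theorem exists_near {A : Set ℍ} {Y : ℝ} {N : ℕ} (hY : 0 < Y) (hN : 0 < N) (hg : GridOK A Y N)
    {z : ℍ} (hz : z ∈ win Y) :
    ∃ v ∈ A, Real.cosh (dist z v) ≤ 1 + 1 / (N : ℝ) ^ 2 := by
  obtain ⟨ab, hzb⟩ := exists_wbox hY hN hz
  have h1 := hg ab
  obtain ⟨v, hv⟩ : (A ∩ wbox Y N ab).Nonempty := by
    rw [← Set.encard_pos, h1]
    exact one_pos
  refine ⟨v, hv.1, ?_⟩
  have hvw := wbox_subset_win hY ab hv.2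
  obtain ⟨⟨a1, a2⟩, a3, a4⟩ := hzb
  obtain ⟨⟨b1, b2⟩, b3, b4⟩ := hv.2
  have hN' : (0 : ℝ) < N := by exact_mod_cast hN
  have hs : 0 < Y / N := by positivity
  have e1 : (z.re - v.re) ^ 2 ≤ (Y / N) ^ 2 := by
    rw [← sq_abs]
    apply pow_le_pow_left₀ (abs_nonneg _)
    rw [abs_le]
    constructor <;> linarith
  have e2 : (z.im - v.im) ^ 2 ≤ (Y / N) ^ 2 := by
    rw [← sq_abs]
    apply pow_le_pow_left₀ (abs_nonneg _)
    rw [abs_le]
    constructor <;> linarith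
  have e3 := cosh_sub_one z v
  have hzY : Y ≤ z.im := hz.2.1
  have hvY : Y ≤ v.im := hvw.2.1
  have e4 : Y * Y ≤ z.im * v.im := mul_le_mul hzY hvY hY.le z.im_pos.le
  have e5 : (Y / N) ^ 2 = (1 / (N : ℝ) ^ 2) * (Y * Y) := by
    field_simp
  have hc := Real.one_le_cosh (dist z v)
  have e6 : (Real.cosh (dist z v) - 1) * (2 * (Y * Y)) ≤ 2 * ((1 / (N : ℝ) ^ 2) * (Y * Y)) := by
    have : (Real.cosh (dist z v) - 1) * (2 * (Y * Y)) ≤
        (Real.cosh (dist z v) - 1) * (2 * (z.im * v.im)) :=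
      mul_le_mul_of_nonneg_left (by linarith) (by linarith)
    rw [← e5]
    linarith
  have hYY : 0 < 2 * (Y * Y) := by positivity
  have e7 : (Real.cosh (dist z v) - 1) * (2 * (Y * Y)) ≤ (1 / (N : ℝ) ^ 2) * (2 * (Y * Y)) := by
    linarith
  have := le_of_mul_le_mul_right e7 hYY
  linarith

theorem near_nucleus {A : Set ℍ} {Y : ℝ} {N : ℕ} (hY : 0 < Y) (hN : 0 < N) (hg : GridOK A Y N)
    {z v : ℍ} (hz : z ∈ win Y) (hv : z ∈ cell A v) :
    Real.cosh (dist z v) ≤ 1 + 1 / (N : ℝ) ^ 2 := by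
  obtain ⟨u, hu, h⟩ := exists_near hY hN hg hz
  exact ((cosh_dist_le_iff z v z u).mpr (hv u hu)).trans h

/-- from hyperbolic to Euclidean nearness -/
theorem nr_of_cosh {Y : ℝ} {N : ℕ} (hY : 0 < Y) (hN : 4 ≤ N) {z v : ℍ} (hz : z.im ≤ 2 * Y)
    (h : Real.cosh (dist z v) ≤ 1 + 2 / (N : ℝ) ^ 2) : nr z v (6 * (Y / N)) := by
  have hN' : (4 : ℝ) ≤ N := by exact_mod_cast hN
  have hN0 : (0 : ℝ) < N := by linarith
  have hv := v.im_pos
  have hzi := z.im_pos
  have e1 := cosh_sub_one z v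
  have e2 : (z.re - v.re) ^ 2 + (z.im - v.im) ^ 2 ≤ 2 / (N : ℝ) ^ 2 * (2 * (2 * Y * v.im)) := by
    rw [← e1]
    apply mul_le_mul (by linarith) _ (by positivity) (by positivity)
    have := mul_le_mul_of_nonneg_right hz hv.le
    linarith
  have e3 : v.im ≤ 4 * Y := by
    by_contra hcon
    push Not at hcon
    have a1 : v.im / 2 ≤ v.im - z.im := by linarith
    have a2 : (v.im / 2) ^ 2 ≤ (z.im - v.im) ^ 2 := by
      have : (z.im - v.im) ^ 2 = (v.im - z.im) ^ 2 := by ring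
      rw [this]
      exact pow_le_pow_left₀ (by positivity) a1 2
    have a3 : (v.im / 2) ^ 2 ≤ 2 / (N : ℝ) ^ 2 * (2 * (2 * Y * v.im)) := by
      nlinarith [sq_nonneg (z.re - v.re)]
    have a4 : (1 : ℝ) / (N : ℝ) ^ 2 ≤ 1 / 16 := by
      apply one_div_le_one_div_of_le (by norm_num)
      nlinarith
    have a5 : 2 / (N : ℝ) ^ 2 * (2 * (2 * Y * v.im)) = (1 / (N : ℝ) ^ 2) * (8 * Y * v.im) := by
      ring
    rw [a5] at a3
    have a6 : (1 / (N : ℝ) ^ 2) * (8 * Y * v.im) ≤ 1 / 16 * (8 * Y * v.im) :=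
      mul_le_mul_of_nonneg_right a4 (by positivity)
    nlinarith
  have e4 : (z.re - v.re) ^ 2 + (z.im - v.im) ^ 2 ≤ (6 * (Y / N)) ^ 2 := by
    refine e2.trans ?_
    have : 2 / (N : ℝ) ^ 2 * (2 * (2 * Y * v.im)) ≤ 2 / (N : ℝ) ^ 2 * (2 * (2 * Y * (4 * Y))) := by
      apply mul_le_mul_of_nonneg_left _ (by positivity)
      have := mul_le_mul_of_nonneg_left e3 hY.le
      linarith
    refine this.trans ?_
    have e5 : (6 * (Y / N)) ^ 2 = 36 * Y ^ 2 / (N : ℝ) ^ 2 := by field_simp; ring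
    have e6 : 2 / (N : ℝ) ^ 2 * (2 * (2 * Y * (4 * Y))) = 32 * Y ^ 2 / (N : ℝ) ^ 2 := by
      field_simp; ring
    rw [e5, e6]
    apply div_le_div_of_nonneg_right _ (by positivity)
    nlinarith [sq_nonneg Y]
  have hs : 0 ≤ 6 * (Y / N) := by positivity
  constructor
  · apply abs_le_of_sq_le_sq _ hs
    nlinarith [sq_nonneg (z.im - v.im)]
  · apply abs_le_of_sq_le_sq _ hs
    nlinarith [sq_nonneg (z.re - v.re)]

/-- deep points of the window -/
def deep (Y : ℝ) (N : ℕ) (v : ℍ) : Prop :=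
  6 * (Y / N) ≤ v.re ∧ v.re + 6 * (Y / N) < Y ∧ Y + 6 * (Y / N) ≤ v.im ∧
    v.im + 6 * (Y / N) < 2 * Y

theorem win_of_nr {Y : ℝ} {N : ℕ} {z v : ℍ} (hv : deep Y N v) (h : nr v z (6 * (Y / N))) :
    z ∈ win Y := by
  obtain ⟨h1, h2, h3, h4⟩ := hv
  obtain ⟨a1, a2⟩ := h
  rw [abs_le] at a1 a2
  exact ⟨⟨by linarith, by linarith⟩, by linarith, by linarith⟩

theorem cosh_upper {s : ℝ} (hs : s ^ 2 ≤ 3 / 16) : Real.cosh s ≤ 1 + 2 / 3 * s ^ 2 := by
  have h1 := Real.cosh_le_exp_half_sq s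
  have h2 : |s ^ 2 / 2| ≤ 1 := by
    rw [abs_of_nonneg (by positivity)]
    linarith
  have h3 := Real.abs_exp_sub_one_sub_id_le h2
  have h4 := (abs_le.mp h3).2
  nlinarith [sq_nonneg s]

theorem deep_cell {A : Set ℍ} {Y : ℝ} {N : ℕ} (hY : 0 < Y) (hN : 4 ≤ N) (hg : GridOK A Y N)
    {v z : ℍ} (hv : deep Y N v) (hz : z ∈ cell A v) : nr v z (6 * (Y / N)) := by
  have hN' : (4 : ℝ) ≤ N := by exact_mod_cast hN
  have hN0 : (0 : ℝ) < N := by linarith
  have hv2 : v.im ≤ 2 * Y := by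
    have := hv.2.2.2
    have : 0 < Y / N := by positivity
    linarith
  set s : ℝ := √3 / N with hs
  have hs2 : s ^ 2 = 3 / (N : ℝ) ^ 2 := by
    rw [hs, div_pow, Real.sq_sqrt (by norm_num)]
  have hs0 : 0 < s := by positivity
  have hsle : s ^ 2 ≤ 3 / 16 := by
    rw [hs2]
    apply div_le_div_of_nonneg_left (by norm_num) (by norm_num)
    nlinarith
  have hup : Real.cosh s ≤ 1 + 2 / (N : ℝ) ^ 2 := by
    refine (cosh_upper hsle).trans (le_of_eq ?_)
    rw [hs2]; ring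
  have hlo : 1 + 1 / (N : ℝ) ^ 2 < Real.cosh s := by
    have := half_sq_le_cosh s
    rw [hs2] at this
    have e : (3 / (N : ℝ) ^ 2) / 2 = 1 / (N : ℝ) ^ 2 + 1 / 2 * (1 / (N : ℝ) ^ 2) := by ring
    rw [e] at this
    have : 0 < 1 / (N : ℝ) ^ 2 := by positivity
    linarith
  have hdist : dist v z ≤ s := by
    by_contra hcon
    push Not at hcon
    obtain ⟨u, hu1, hu2⟩ := exists_on_segment hs0.le hcon.le
    have hu : u ∈ cell A v := mem_cell_of_between hz (by rw [hu1, hu2]; ring)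
    have hnr : nr v u (6 * (Y / N)) := nr_of_cosh hY hN hv2 (by rw [hu1]; exact hup)
    have huw := win_of_nr hv hnr
    have h3 := near_nucleus hY (by omega) hg huw hu
    rw [dist_comm, hu1] at h3
    linarith
  apply nr_of_cosh hY hN hv2
  refine le_trans ?_ hup
  rw [Real.cosh_le_cosh, abs_of_nonneg dist_nonneg, abs_of_pos hs0]
  exact hdist

theorem deep_adj {A : Set ℍ} {Y : ℝ} {N : ℕ} (hY : 0 < Y) (hN : 4 ≤ N) (hg : GridOK A Y N)
    {v w : A} (hv : deep Y N v) (h : (voronoiGraph A).Adj v w) :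
    nr (v : ℍ) w (12 * (Y / N)) := by
  obtain ⟨z, hz1, hz2⟩ := exists_touch h
  have h1 := deep_cell hY hN hg hv hz1
  have hzw := win_of_nr hv h1
  have h2 : nr z w (6 * (Y / N)) := by
    apply nr_of_cosh hY hN hzw.2.2.le
    refine (near_nucleus hY (by omega) hg hzw hz2).trans ?_
    have : 0 < 1 / (N : ℝ) ^ 2 := by
      have : (0 : ℝ) < N := by
        have : (4 : ℝ) ≤ N := by exact_mod_cast hN
        linarith
      positivity
    have e : 2 / (N : ℝ) ^ 2 = 2 * (1 / (N : ℝ) ^ 2) := by ring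
    rw [e]
    linarith
  exact (h1.trans h2).mono (by linarith)

/-- a nucleus whose cell contains a point of the window is close to it -/
theorem cell_near {A : Set ℍ} {Y : ℝ} {N : ℕ} (hY : 0 < Y) (hN : 4 ≤ N) (hg : GridOK A Y N)
    {z v : ℍ} (hz : z ∈ win Y) (hv : z ∈ cell A v) : nr z v (6 * (Y / N)) := by
  apply nr_of_cosh hY hN hz.2.2.le
  refine (near_nucleus hY (by omega) hg hz hv).trans ?_
  have : 0 < 1 / (N : ℝ) ^ 2 := by
    have : (0 : ℝ) < N := by
      have : (4 : ℝ) ≤ N := by exact_mod_cast hN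
      linarith
    positivity
  have e : 2 / (N : ℝ) ^ 2 = 2 * (1 / (N : ℝ) ^ 2) := by ring
  rw [e]
  linarith

/-- walks that start at the centre of the window stay close for a long time -/
theorem walk_near {A : Set ℍ} {Y : ℝ} {N : ℕ} (hY : 0 < Y) (hN : 1024 ≤ N) (hg : GridOK A Y N)
    {m : A} (hm1 : |(m : ℍ).re - Y / 4| ≤ Y / 8 + 12 * (Y / N))
    (hm2 : |(m : ℍ).im - 3 * Y / 2| ≤ Y / 8 + 12 * (Y / N)) :
    ∀ (k : ℕ) (a : A) (w : (voronoiGraph A).Walk m a), w.length = k → 256 * k ≤ N →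
      nr (m : ℍ) a (12 * k * (Y / N)) := by
  have hN' : (1024 : ℝ) ≤ N := by exact_mod_cast hN
  have hN0 : (0 : ℝ) < N := by linarith
  have hYN : 0 < Y / N := by positivity
  have hYN2 : 1024 * (Y / N) ≤ Y := by
    rw [mul_div_assoc', div_le_iff₀ hN0]
    nlinarith
  intro k
  induction k with
  | zero =>
    intro a w hw _
    have := SimpleGraph.Walk.eq_of_length_eq_zero hw
    subst this
    constructor <;> simp
  | succ k ih =>
    intro a w hw hk
    have hpen : (w.take k).length = k := by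
      rw [SimpleGraph.Walk.take_length, hw]; simp
    have h1 := ih _ (w.take k) hpen (by omega)
    have hadj := w.adj_getVert_succ (i := k) (by omega)
    have hend : w.getVert (k + 1) = a := by
      rw [← hw]; exact w.getVert_length
    rw [hend] at hadj
    have hkN : 12 * (k : ℝ) * (Y / N) ≤ 12 / 256 * Y := by
      have : (256 : ℝ) * k ≤ N := by
        have : 256 * k ≤ N := by omega
        exact_mod_cast this
      have e : 12 * (k : ℝ) * (Y / N) = 12 / 256 * ((256 * k) * (Y / N)) := by ring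
      rw [e]
      have e2 : (256 * (k : ℝ)) * (Y / N) ≤ N * (Y / N) := mul_le_mul_of_nonneg_right this hYN.le
      have e3 : (N : ℝ) * (Y / N) = Y := by field_simp
      rw [e3] at e2
      linarith
    have hdeep : deep Y N (w.getVert k : ℍ) := by
      obtain ⟨a1, a2⟩ := h1
      rw [abs_le] at a1 a2 hm1 hm2
      unfold deep
      refine ⟨?_, ?_, ?_, ?_⟩ <;> linarith
    have h2 := deep_adj hY (by omega) hg hdeep hadj
    refine (h1.trans h2).mono ?_
    push_cast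
    linarith

theorem dist_large {A : Set ℍ} {Y : ℝ} {N L : ℕ} (hY : 0 < Y) (hN : 1024 ≤ N)
    (hg : GridOK A Y N) (hc : (voronoiGraph A).Connected)
    {m : A} (hm1 : |(m : ℍ).re - Y / 4| ≤ Y / 8 + 12 * (Y / N))
    (hm2 : |(m : ℍ).im - 3 * Y / 2| ≤ Y / 8 + 12 * (Y / N)) (hL : 256 * L ≤ N) {a : A}
    (ha : ¬ nr (m : ℍ) a (Y / 16)) : L ≤ (voronoiGraph A).dist m a := by
  by_contra hcon
  push Not at hcon
  obtain ⟨w, hw⟩ := (hc m a).exists_walk_length_eq_dist
  have hN' : (1024 : ℝ) ≤ N := by exact_mod_cast hN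
  have hN0 : (0 : ℝ) < N := by linarith
  have hYN : 0 < Y / N := by positivity
  have h1 := walk_near hY hN hg hm1 hm2 _ a w hw (by omega)
  apply ha
  refine h1.mono ?_
  have h2 : (256 : ℝ) * ((voronoiGraph A).dist m a : ℕ) ≤ N := by
    have : 256 * (voronoiGraph A).dist m a ≤ N := by omega
    exact_mod_cast this
  have e : 12 * (((voronoiGraph A).dist m a : ℕ) : ℝ) * (Y / N) =
      12 / 256 * ((256 * (((voronoiGraph A).dist m a : ℕ) : ℝ)) * (Y / N)) := by ring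
  rw [e]
  have e2 := mul_le_mul_of_nonneg_right h2 hYN.le
  have e3 : (N : ℝ) * (Y / N) = Y := by field_simp
  rw [e3] at e2
  linarith

/-- the number of cells that meet a region inside the window -/
theorem ncard_meeting_grid {A : Set ℍ} {Y : ℝ} {N : ℕ} (hY : 0 < Y) (hN : 4 ≤ N)
    (hg : GridOK A Y N) {U : Set ℍ} (hU : ∀ z ∈ U, deep Y N z) :
    (meeting A U).Finite ∧ (meeting A U).ncard ≤ N * N := by
  classical
  have hex : ∀ v : meeting A U, ∃ ab : Fin N × Fin N, ((v : A) : ℍ) ∈ wbox Y N ab := by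
    rintro ⟨v, z, hzU, hz⟩
    have hzd := hU z hzU
    have hYN : 0 < Y / N := by
      have : (4 : ℝ) ≤ N := by exact_mod_cast hN
      have : (0 : ℝ) < N := by linarith
      positivity
    have hzw : z ∈ win Y := win_of_nr hzd ⟨by simp [hYN.le], by simp [hYN.le]⟩
    have h1 := cell_near hY hN hg hzw hz
    exact exists_wbox hY (by omega) (win_of_nr hzd h1)
  choose f hf using hex
  have hinj : Function.Injective f := by
    intro v w hvw
    have h1 := hf v
    have h2 := hf w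
    rw [← hvw] at h2
    have h3 := hg (f v)
    rw [Set.encard_eq_one] at h3
    obtain ⟨u, hu⟩ := h3
    have e1 : ((v : A) : ℍ) ∈ A ∩ wbox Y N (f v) := ⟨(v : A).2, h1⟩
    have e2 : ((w : A) : ℍ) ∈ A ∩ wbox Y N (f v) := ⟨(w : A).2, h2⟩
    rw [hu, Set.mem_singleton_iff] at e1 e2
    exact Subtype.ext (Subtype.ext (e1.trans e2.symm))
  have hfin : Finite (meeting A U) := Finite.of_injective f hinj
  refine ⟨Set.toFinite _, ?_⟩
  have h1 := Nat.card_le_card_of_injective f hinj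
  have h2 : Nat.card (Fin N × Fin N) = N * N := by
    rw [Nat.card_eq_fintype_card (α := Fin N × Fin N)]; simp
  rw [h2] at h1
  exact h1

end

end Pool.Agent.Y979.HT
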