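import Pool.Agent.Y979.HT.Grid

/-!
# A flat piece of the Voronoi graph contradicts anchored thinness
-/

set_option autoImplicit false

open UpperHalfPlane Real Pool.Agent.Y979.HV

namespace Pool.Agent.Y979.HT

noncomputable section

theorem path_rect {A : Set ℍ} (hA : LocFin A) {Y : ℝ} {N : ℕ} (hY : 0 < Y) (hN : 4 ≤ N)
    (hg : GridOK A Y N) {a b c d : ℝ} (hab : a < b) (hcd : c < d) (h1 : 6 * (Y / N) ≤ a)
    (h2 : b + 6 * (Y / N) ≤ Y) (h3 : Y + 6 * (Y / N) ≤ c) (h4 : d + 6 * (Y / N) ≤ 2 * Y)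
    {x y : A} (hx : x ∈ meeting A (rect a b c d)) (hy : y ∈ meeting A (rect a b c d)) :
    ∃ p : (voronoiGraph A).Walk x y, p.length ≤ N * N ∧
      ∀ v ∈ p.support, ∃ z ∈ rect a b c d, nr z (v : ℍ) (6 * (Y / N)) := by
  have hN0 : (0 : ℝ) < N := by
    have : (4 : ℝ) ≤ N := by exact_mod_cast hN
    linarith
  have hYN : 0 < Y / N := by positivity
  have hdeep : ∀ z ∈ rect a b c d, deep Y N z := by
    rintro z ⟨⟨a1, a2⟩, a3, a4⟩
    exact ⟨by linarith, by linarith, by linarith, by linarith⟩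
  obtain ⟨hfin, hcard⟩ := ncard_meeting_grid hY hN hg hdeep
  obtain ⟨p, hp1, hp2⟩ := exists_walk_support hA (isOpen_rect a b c d)
    (fun B hB => rect_diff_preconnected hab (by linarith) hcd hB) hfin hx hy
  refine ⟨p, by omega, fun v hv => ?_⟩
  obtain ⟨z, hz1, hz2⟩ := hp2 v hv
  have hzw : z ∈ win Y := win_of_nr (hdeep z hz1) ⟨by simp [hYN.le], by simp [hYN.le]⟩
  exact ⟨z, hz1, cell_near hY hN hg hzw hz2⟩

/-- the point with Euclidean coordinates `a`, `b` -/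
def pt (a b : ℝ) (hb : 0 < b) : ℍ := ⟨⟨a, b⟩, hb⟩

theorem pt_re (a b : ℝ) (hb : 0 < b) : (pt a b hb).re = a := rfl
theorem pt_im (a b : ℝ) (hb : 0 < b) : (pt a b hb).im = b := rfl

theorem pt_mem_rect {x y : ℝ} (hy : 0 < y) {a b c d : ℝ} (h1 : a < x) (h2 : x < b) (h3 : c < y)
    (h4 : y < d) : pt x y hy ∈ rect a b c d := ⟨⟨h1, h2⟩, h3, h4⟩

theorem detour {A : Set ℍ} (hA : LocFin A) (hne : A.Nonempty) {Y : ℝ} {N : ℕ} (hY : 0 < Y)
    (hN : 1024 ≤ N) (hg : GridOK A Y N) {c d h : ℝ} (hc : Y + 6 * (Y / N) ≤ c)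
    (hd : d + 6 * (Y / N) ≤ 2 * Y) (h1 : c ≤ h - Y / N) (h2 : h + Y / N ≤ d) (h3 : c < 3 / 2 * Y)
    (h4 : 3 / 2 * Y < d) {y0 z0 : A}
    (hy0 : pt (Y / 4) (3 / 2 * Y) (by positivity) ∈ cell A y0)
    (hz0 : pt (3 / 4 * Y) (3 / 2 * Y) (by positivity) ∈ cell A z0) :
    ∃ p : (voronoiGraph A).Walk y0 z0, p.length ≤ 3 * (N * N) ∧
      ∀ v ∈ p.support, ∃ z : ℍ, nr z (v : ℍ) (6 * (Y / N)) ∧
        (((|z.re - Y / 4| ≤ Y / N ∧ c ≤ z.im) ∧ z.im ≤ d) ∨ |z.im - h| ≤ Y / N ∨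
          3 / 4 * Y - Y / N ≤ z.re) := by
  have hN' : (1024 : ℝ) ≤ N := by exact_mod_cast hN
  have hN0 : (0 : ℝ) < N := by linarith
  have hYN : 0 < Y / N := by positivity
  have hYN2 : 1024 * (Y / N) ≤ Y := by
    rw [mul_div_assoc', div_le_iff₀ hN0]
    nlinarith
  have hh : 0 < h := by linarith
  obtain ⟨u1, hu1A, hu1⟩ := exists_nucleus hA hne (pt (Y / 4) h hh)
  obtain ⟨u2, hu2A, hu2⟩ := exists_nucleus hA hne (pt (3 / 4 * Y) h hh)
  obtain ⟨p1, hp1, hp1'⟩ := path_rect (x := y0) (y := ⟨u1, hu1A⟩) hA hY (by omega) hg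
    (a := Y / 4 - Y / N) (b := Y / 4 + Y / N) (c := c) (d := d) (by linarith) (by linarith)
    (by linarith) (by linarith) hc hd
    ⟨_, pt_mem_rect _ (by linarith) (by linarith) (by linarith) (by linarith), hy0⟩
    ⟨_, pt_mem_rect _ (by linarith) (by linarith) (by linarith) (by linarith), hu1⟩
  obtain ⟨p2, hp2, hp2'⟩ := path_rect (x := ⟨u1, hu1A⟩) (y := ⟨u2, hu2A⟩) hA hY (by omega) hg
    (a := Y / 4 - Y / N) (b := 3 / 4 * Y + Y / N) (c := h - Y / N) (d := h + Y / N)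
    (by linarith) (by linarith) (by linarith) (by linarith) (by linarith) (by linarith)
    ⟨_, pt_mem_rect _ (by linarith) (by linarith) (by linarith) (by linarith), hu1⟩
    ⟨_, pt_mem_rect _ (by linarith) (by linarith) (by linarith) (by linarith), hu2⟩
  obtain ⟨p3, hp3, hp3'⟩ := path_rect (x := ⟨u2, hu2A⟩) (y := z0) hA hY (by omega) hg
    (a := 3 / 4 * Y - Y / N) (b := 3 / 4 * Y + Y / N) (c := c) (d := d) (by linarith)
    (by linarith) (by linarith) (by linarith) hc hd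
    ⟨_, pt_mem_rect _ (by linarith) (by linarith) (by linarith) (by linarith), hu2⟩
    ⟨_, pt_mem_rect _ (by linarith) (by linarith) (by linarith) (by linarith), hz0⟩
  refine ⟨p1.append (p2.append p3), ?_, ?_⟩
  · rw [SimpleGraph.Walk.length_append, SimpleGraph.Walk.length_append]
    omega
  · intro v hv
    rw [SimpleGraph.Walk.mem_support_append_iff, SimpleGraph.Walk.mem_support_append_iff] at hv
    rcases hv with hv | hv | hv
    · obtain ⟨z, ⟨⟨a1, a2⟩, a3, a4⟩, hz⟩ := hp1' v hv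
      refine ⟨z, hz, Or.inl ⟨⟨?_, a3.le⟩, a4.le⟩⟩
      rw [abs_le]; constructor <;> linarith
    · obtain ⟨z, ⟨⟨a1, a2⟩, a3, a4⟩, hz⟩ := hp2' v hv
      refine ⟨z, hz, Or.inr (Or.inl ?_)⟩
      rw [abs_le]; constructor <;> linarith
    · obtain ⟨z, ⟨⟨a1, a2⟩, a3, a4⟩, hz⟩ := hp3' v hv
      exact ⟨z, hz, Or.inr (Or.inr a1.le)⟩

/-- the contradiction, quantitatively -/
theorem grid_bound {A : Set ℍ} (hA : LocFin A) (hne : A.Nonempty) {Y : ℝ} {n : ℕ} (hY : 0 < Y)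
    (hn : 10 ≤ n) (hg : GridOK A Y (2 ^ n)) (hc : (voronoiGraph A).Connected) {x : A} {D : ℕ}
    (hx : AnchoredThin (voronoiGraph A) x D) :
    2 * 2 ^ (n - 8) ≤ 1 + 2 * (6 * D + 2) * (2 * n + 2) := by
  obtain ⟨N, hNn⟩ : ∃ N : ℕ, N = 2 ^ n := ⟨_, rfl⟩
  have hN : 1024 ≤ N := by
    rw [hNn]
    calc 1024 = 2 ^ 10 := by norm_num
      _ ≤ 2 ^ n := Nat.pow_le_pow_right (by norm_num) hn
  rw [← hNn] at hg
  have hN' : (1024 : ℝ) ≤ N := by exact_mod_cast hN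
  have hN0 : (0 : ℝ) < N := by linarith
  have hYN : 0 < Y / N := by positivity
  have hYN2 : 1024 * (Y / N) ≤ Y := by
    rw [mul_div_assoc', div_le_iff₀ hN0]
    nlinarith
  have hL : 256 * 2 ^ (n - 8) ≤ N := by
    rw [hNn]
    calc 256 * 2 ^ (n - 8) = 2 ^ 8 * 2 ^ (n - 8) := by norm_num
      _ = 2 ^ (8 + (n - 8)) := (pow_add 2 8 (n - 8)).symm
      _ ≤ 2 ^ n := Nat.pow_le_pow_right (by norm_num) (by omega)
  have h32 : 0 < 3 / 2 * Y := by positivity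
  obtain ⟨y0, hy0A, hy0⟩ := exists_nucleus hA hne (pt (Y / 4) (3 / 2 * Y) h32)
  obtain ⟨z0, hz0A, hz0⟩ := exists_nucleus hA hne (pt (3 / 4 * Y) (3 / 2 * Y) h32)
  have hw1 : pt (Y / 4) (3 / 2 * Y) h32 ∈ win Y := by
    refine ⟨⟨?_, ?_⟩, ?_, ?_⟩ <;> simp only [pt_re, pt_im] <;> linarith
  have hw2 : pt (3 / 4 * Y) (3 / 2 * Y) h32 ∈ win Y := by
    refine ⟨⟨?_, ?_⟩, ?_, ?_⟩ <;> simp only [pt_re, pt_im] <;> linarith
  have hny := cell_near hY (by omega) hg hw1 hy0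
  have hnz := cell_near hY (by omega) hg hw2 hz0
  obtain ⟨p, hp⟩ := (hc ⟨y0, hy0A⟩ ⟨z0, hz0A⟩).exists_walk_length_eq_dist
  -- the first vertex that leaves the small square
  have hex : ∃ i, ¬ nr (pt (Y / 4) (3 / 2 * Y) h32) (p.getVert i : ℍ) (Y / 8) := by
    refine ⟨p.length, ?_⟩
    rw [p.getVert_length]
    rintro ⟨b1, -⟩
    obtain ⟨c1, -⟩ := hnz
    simp only [pt_re] at b1 c1
    rw [abs_le] at b1 c1
    linarith
  classical
  have hfirst := Nat.find_spec hex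
  have hmin : ∀ j, j < Nat.find hex →
      nr (pt (Y / 4) (3 / 2 * Y) h32) (p.getVert j : ℍ) (Y / 8) := by
    intro j hj
    have := Nat.find_min hex hj
    push Not at this
    exact this
  set i := Nat.find hex with hi
  have hi0 : i ≠ 0 := by
    intro h0
    rw [h0, p.getVert_zero] at hfirst
    exact hfirst (hny.mono (by linarith))
  have hil : i ≤ p.length := by
    by_contra hcon
    push Not at hcon
    have h5 := hmin _ hcon
    rw [p.getVert_length] at h5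
    obtain ⟨b1, -⟩ := h5
    obtain ⟨c1, -⟩ := hnz
    simp only [pt_re] at b1 c1
    rw [abs_le] at b1 c1
    linarith
  obtain ⟨j, hj⟩ : ∃ j, i = j + 1 := ⟨i - 1, by omega⟩
  have hprev := hmin j (by omega)
  have hadj := p.adj_getVert_succ (i := j) (by omega)
  have hdeep : deep Y N (p.getVert j : ℍ) := by
    obtain ⟨b1, b2⟩ := hprev
    simp only [pt_re, pt_im] at b1 b2
    rw [abs_le] at b1 b2
    refine ⟨?_, ?_, ?_, ?_⟩ <;> linarith
  have hstep := deep_adj hY (by omega) hg hdeep hadj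
  rw [← hj] at hstep
  have hnear : nr (pt (Y / 4) (3 / 2 * Y) h32) (p.getVert i : ℍ) (Y / 8 + 12 * (Y / N)) :=
    hprev.trans hstep
  obtain ⟨m, hm⟩ : ∃ m, m = p.getVert i := ⟨_, rfl⟩
  have hmp : m ∈ p.support := hm ▸ p.getVert_mem_support i
  rw [← hm] at hnear hfirst
  have hm1 : |(m : ℍ).re - Y / 4| ≤ Y / 8 + 12 * (Y / N) := by
    rw [abs_sub_comm]; exact hnear.1
  have hm2 : |(m : ℍ).im - 3 * Y / 2| ≤ Y / 8 + 12 * (Y / N) := by
    have e : 3 * Y / 2 = 3 / 2 * Y := by ring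
    rw [e, abs_sub_comm]; exact hnear.2
  have hout : Y / 8 < |(m : ℍ).re - Y / 4| ∨ Y / 8 < |(m : ℍ).im - 3 / 2 * Y| := by
    by_contra hcon
    push Not at hcon
    apply hfirst
    refine ⟨?_, ?_⟩
    · rw [abs_sub_comm]; exact hcon.1
    · rw [abs_sub_comm]; exact hcon.2
  -- the detour
  have hkey : ∃ c : (voronoiGraph A).Walk ⟨y0, hy0A⟩ ⟨z0, hz0A⟩, c.length ≤ 3 * (N * N) ∧
      ∀ a ∈ c.support, ¬ nr (m : ℍ) a (Y / 16) := by
    rw [abs_le] at hm1 hm2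
    rcases le_or_gt (3 / 2 * Y) (m : ℍ).im with hcase | hcase
    · obtain ⟨c, hc1, hc2⟩ := detour (y0 := ⟨y0, hy0A⟩) (z0 := ⟨z0, hz0A⟩) hA hne hY hN hg
        (c := 5 / 4 * Y - Y / N) (d := 3 / 2 * Y + Y / N) (h := 5 / 4 * Y) (by linarith)
        (by linarith) (by linarith) (by linarith) (by linarith) (by linarith) hy0 hz0
      refine ⟨c, hc1, fun a ha hna => ?_⟩
      obtain ⟨z, hz, hz'⟩ := hc2 a ha
      obtain ⟨k1, k2⟩ := hna.trans hz.symm
      rw [abs_le] at k1 k2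
      rcases hz' with ⟨⟨z1, z2⟩, z3⟩ | z1 | z1
      · rw [abs_le] at z1
        rcases hout with ho | ho
        · rw [lt_abs] at ho
          rcases ho with ho | ho <;> linarith
        · rw [lt_abs] at ho
          rcases ho with ho | ho <;> linarith
      · rw [abs_le] at z1
        linarith
      · linarith
    · obtain ⟨c, hc1, hc2⟩ := detour (y0 := ⟨y0, hy0A⟩) (z0 := ⟨z0, hz0A⟩) hA hne hY hN hg
        (c := 3 / 2 * Y - Y / N) (d := 7 / 4 * Y + Y / N) (h := 7 / 4 * Y) (by linarith)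
        (by linarith) (by linarith) (by linarith) (by linarith) (by linarith) hy0 hz0
      refine ⟨c, hc1, fun a ha hna => ?_⟩
      obtain ⟨z, hz, hz'⟩ := hc2 a ha
      obtain ⟨k1, k2⟩ := hna.trans hz.symm
      rw [abs_le] at k1 k2
      rcases hz' with ⟨⟨z1, z2⟩, z3⟩ | z1 | z1
      · rw [abs_le] at z1
        rcases hout with ho | ho
        · rw [lt_abs] at ho
          rcases ho with ho | ho <;> linarith
        · rw [lt_abs] at ho
          rcases ho with ho | ho <;> linarith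
      · rw [abs_le] at z1
        linarith
      · linarith
  obtain ⟨c, hc1, hc2⟩ := hkey
  refine divergence hc hx hp hmp (r := 2 ^ (n - 8)) (k := 2 * n + 2) c ?_ ?_
  · refine hc1.trans ?_
    have e : 2 ^ (2 * n + 2) = 4 * (N * N) := by
      rw [hNn]; ring
    rw [e]
    exact Nat.mul_le_mul_right _ (by norm_num)
  · intro a ha
    exact dist_large hY hN hg hc hm1 hm2 hL (hc2 a ha)

/-- flat pieces of all sizes exclude anchored thinness -/
theorem not_anchoredThin {A : Set ℍ} (hA : LocFin A) (hne : A.Nonempty)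
    (hg : ∀ n : ℕ, ∃ Y : ℝ, 0 < Y ∧ GridOK A Y (2 ^ n)) (hc : (voronoiGraph A).Connected)
    (x : A) (δ : ℝ) : ¬ AnchoredThin (voronoiGraph A) x δ := by
  intro hx
  have hx' : AnchoredThin (voronoiGraph A) x ((⌈δ⌉₊ : ℕ) : ℝ) := by
    intro y z p q r hp hq hr
    obtain ⟨h1, h2, h3⟩ := hx y z p q r hp hq hr
    have hle := Nat.le_ceil δ
    refine ⟨fun u hu => ?_, fun u hu => ?_, fun u hu => ?_⟩
    · obtain ⟨w, hw, hd⟩ := h1 u hu
      exact ⟨w, hw, hd.trans hle⟩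
    · obtain ⟨w, hw, hd⟩ := h2 u hu
      exact ⟨w, hw, hd.trans hle⟩
    · obtain ⟨w, hw, hd⟩ := h3 u hu
      exact ⟨w, hw, hd.trans hle⟩
  obtain ⟨D, hD⟩ : ∃ D : ℕ, D = ⌈δ⌉₊ := ⟨_, rfl⟩
  rw [← hD] at hx'
  -- the inequality fails for large `n`
  have hlim : ∃ n : ℕ, 10 ≤ n ∧ 1 + 2 * (6 * D + 2) * (2 * n + 2) < 2 * 2 ^ (n - 8) := by
    have key : ∀ K : ℕ, ∃ m : ℕ, 2 ≤ m ∧ 1 + K * (2 * (m + 8) + 2) < 2 * 2 ^ m := by
      intro K
      have ht := tendsto_pow_const_div_const_pow_of_one_lt 1 (one_lt_two (α := ℝ))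
      have ht2 : Filter.Tendsto (fun m : ℕ => (m : ℝ) ^ 1 / 2 ^ m) Filter.atTop (nhds 0) := ht
      have hev := ht2.eventually (gt_mem_nhds (show (0 : ℝ) < 1 / (20 * K + 1) by positivity))
      obtain ⟨m, hm1, hm2⟩ := (hev.and (Filter.eventually_ge_atTop 2)).exists
      refine ⟨m, hm2, ?_⟩
      rw [pow_one, div_lt_div_iff₀ (by positivity) (by positivity)] at hm1
      have h3 : ((m * (20 * K + 1) : ℕ) : ℝ) < ((2 ^ m : ℕ) : ℝ) := by
        push_cast; linarith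
      have h4 : m * (20 * K + 1) < 2 ^ m := by exact_mod_cast h3
      nlinarith
    obtain ⟨m, hm1, hm2⟩ := key (2 * (6 * D + 2))
    exact ⟨m + 8, by omega, by simpa using hm2⟩
  obtain ⟨n, hn1, hn2⟩ := hlim
  obtain ⟨Y, hY, hgn⟩ := hg n
  have := grid_bound hA hne hY hn1 hgn hc hx'
  omega

end

end Pool.Agent.Y979.HT
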