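import Pool.Agent.Y979.HT.GridMain
import Pool.Agent.Y979.HV.Main

/-!
# Flat pieces of every size occur almost surely
-/

set_option autoImplicit false

open MeasureTheory UpperHalfPlane Pool.Agent.Y979.HV
open scoped ENNReal

namespace Pool.Agent.Y979.HT

noncomputable section

variable {Ω : Type*} [MeasurableSpace Ω] {P : Measure Ω} {lam : ℝ} {Q : Ω → Set ℍ}

/-- independence of the counts for an arbitrary index type -/
theorem indep_counts (hQ : IsPoissonProcess P lam Q) {ι : Type*} {B : ι → Set ℍ}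
    (hB : ∀ i, MeasurableSet (B i)) (hd : Pairwise (fun i j => Disjoint (B i) (B j)))
    (S : Finset ι) (s : ι → Set ℕ∞) (hs : ∀ i, MeasurableSet (s i)) :
    P (⋂ i ∈ S, (fun ω => (Q ω ∩ B i).encard) ⁻¹' s i) =
      ∏ i ∈ S, P ((fun ω => (Q ω ∩ B i).encard) ⁻¹' s i) := by
  classical
  let e : Fin S.card ≃ S := S.equivFin.symm
  have h1 := hQ.indep_count S.card (fun k => B (e k)) (fun k => hB _) (fun k l hkl => by
    apply hd
    intro h
    exact hkl (e.injective (Subtype.ext h)))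
  rw [ProbabilityTheory.iIndepFun_iff_measure_inter_preimage_eq_mul] at h1
  have h2 := h1 Finset.univ (sets := fun k => s (e k)) (fun k _ => hs _)
  have e1 : (⋂ i ∈ S, (fun ω => (Q ω ∩ B i).encard) ⁻¹' s i) =
      ⋂ k ∈ (Finset.univ : Finset (Fin S.card)),
        (fun ω => (Q ω ∩ B (e k)).encard) ⁻¹' s (e k) := by
    ext ω
    simp only [Set.mem_iInter, Finset.mem_univ, true_imp_iff]
    constructor
    · intro h k
      exact h _ (e k).2
    · intro h i hi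
      have := h (e.symm ⟨i, hi⟩)
      rw [Equiv.apply_symm_apply] at this
      exact this
  rw [e1, h2, Finset.prod_equiv e (t := Finset.univ)
    (g := fun i : S => P ((fun ω => (Q ω ∩ B i).encard) ⁻¹' s i)) (by simp) (fun _ _ => rfl)]
  exact Finset.prod_coe_sort S (fun i => P ((fun ω => (Q ω ∩ B i).encard) ⁻¹' s i))

theorem measurableSet_wbox (Y : ℝ) (N : ℕ) (ab : Fin N × Fin N) :
    MeasurableSet (wbox Y N ab) := measurableSet_box measurableSet_Ico _ _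

theorem volume_wbox {Y : ℝ} (hY : 0 < Y) (N : ℕ) (ab : Fin N × Fin N) :
    volume (wbox Y N ab) = ENNReal.ofReal ((1 / N : ℝ) *
      (1 / (1 + ((ab.2 : ℕ) : ℝ) / N) - 1 / (1 + (((ab.2 : ℕ) : ℝ) + 1) / N))) := by
  have hN : 0 < N := lt_of_le_of_lt (Nat.zero_le _) ab.1.2
  have hN' : (0 : ℝ) < N := by exact_mod_cast hN
  have hs : 0 < Y / N := by positivity
  have h1 : 0 < Y + ((ab.2 : ℕ) : ℝ) * (Y / N) := by positivity
  have h2 : Y + ((ab.2 : ℕ) : ℝ) * (Y / N) ≤ Y + (((ab.2 : ℕ) : ℝ) + 1) * (Y / N) := by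
    nlinarith
  unfold wbox
  rw [volume_box measurableSet_Ico h1 h2, Real.volume_Ico, ← ENNReal.ofReal_mul (by nlinarith)]
  congr 1
  have h3 : Y + ((ab.2 : ℕ) : ℝ) * (Y / N) = Y * (1 + ((ab.2 : ℕ) : ℝ) / N) := by ring
  have h4 : Y + (((ab.2 : ℕ) : ℝ) + 1) * (Y / N) = Y * (1 + (((ab.2 : ℕ) : ℝ) + 1) / N) := by ring
  rw [h3, h4]
  have h5 : 0 < 1 + ((ab.2 : ℕ) : ℝ) / N := by positivity
  have h6 : 0 < 1 + (((ab.2 : ℕ) : ℝ) + 1) / N := by positivity
  field_simp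
  ring

/-- the mean number of points of a small square -/
def mu (lam : ℝ) (N : ℕ) (ab : Fin N × Fin N) : ℝ :=
  lam * ((1 / N : ℝ) *
    (1 / (1 + ((ab.2 : ℕ) : ℝ) / N) - 1 / (1 + (((ab.2 : ℕ) : ℝ) + 1) / N)))

theorem mu_pos {lam : ℝ} (hlam : 0 < lam) {N : ℕ} (ab : Fin N × Fin N) : 0 < mu lam N ab := by
  have hN : 0 < N := lt_of_le_of_lt (Nat.zero_le _) ab.1.2
  have hN' : (0 : ℝ) < N := by exact_mod_cast hN
  unfold mu
  have h5 : 0 < 1 + ((ab.2 : ℕ) : ℝ) / N := by positivity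
  have h6 : 1 + ((ab.2 : ℕ) : ℝ) / N < 1 + (((ab.2 : ℕ) : ℝ) + 1) / N := by
    have : ((ab.2 : ℕ) : ℝ) / N < (((ab.2 : ℕ) : ℝ) + 1) / N :=
      div_lt_div_of_pos_right (by linarith) hN'
    linarith
  have h7 := one_div_lt_one_div_of_lt h5 h6
  have h8 : 0 < 1 / (1 + ((ab.2 : ℕ) : ℝ) / N) - 1 / (1 + (((ab.2 : ℕ) : ℝ) + 1) / N) := by
    linarith
  positivity

theorem prob_one_point (hQ : IsPoissonProcess P lam Q) {Y : ℝ} (hY : 0 < Y) (hlam : 0 < lam)
    (N : ℕ) (ab : Fin N × Fin N) :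
    P ((fun ω => (Q ω ∩ wbox Y N ab).encard) ⁻¹' {1}) =
      ENNReal.ofReal (Real.exp (-mu lam N ab) * mu lam N ab) := by
  have hv := volume_wbox hY N ab
  have hnt : volume (wbox Y N ab) ≠ ⊤ := by rw [hv]; exact ENNReal.ofReal_ne_top
  have h := hQ.law_count (wbox Y N ab) (measurableSet_wbox Y N ab) hnt 1
  have hmu : lam * (volume (wbox Y N ab)).toReal = mu lam N ab := by
    rw [hv, ENNReal.toReal_ofReal]
    · rfl
    · have := mu_pos hlam ab
      unfold mu at this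
      exact (pos_of_mul_pos_right this hlam.le).le
  rw [hmu] at h
  have e : (fun ω => (Q ω ∩ wbox Y N ab).encard) ⁻¹' {1} =
      {ω | (Q ω ∩ wbox Y N ab).encard = ((1 : ℕ) : ℕ∞)} := by
    ext ω
    simp
  rw [e, h]
  simp

/-- all the small squares at the dyadic scales are pairwise disjoint -/
theorem disjoint_wbox (N : ℕ) : Pairwise (fun i j : ℕ × (Fin N × Fin N) =>
    Disjoint (wbox ((2 : ℝ) ^ i.1) N i.2) (wbox ((2 : ℝ) ^ j.1) N j.2)) := by
  rintro ⟨i, a, b⟩ ⟨j, c, d⟩ hne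
  rw [Set.disjoint_left]
  intro z hz hw
  apply hne
  have hN : 0 < N := lt_of_le_of_lt (Nat.zero_le _) a.2
  have hN' : (0 : ℝ) < N := by exact_mod_cast hN
  have hzi := wbox_subset_win (by positivity) _ hz
  have hzj := wbox_subset_win (by positivity) _ hw
  have hij : i = j := by
    obtain ⟨-, h1, h2⟩ := hzi
    obtain ⟨-, h3, h4⟩ := hzj
    rcases lt_trichotomy i j with h | h | h
    · exfalso
      have : (2 : ℝ) ^ (i + 1) ≤ 2 ^ j := pow_le_pow_right₀ (by norm_num) h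
      rw [pow_succ] at this
      simp only at h2 h3
      linarith
    · exact h
    · exfalso
      have : (2 : ℝ) ^ (j + 1) ≤ 2 ^ i := pow_le_pow_right₀ (by norm_num) h
      rw [pow_succ] at this
      simp only at h1 h4
      linarith
  subst hij
  set Y : ℝ := (2 : ℝ) ^ i with hY
  have hYp : 0 < Y := by positivity
  have hs : 0 < Y / N := by positivity
  obtain ⟨⟨a1, a2⟩, a3, a4⟩ := hz
  obtain ⟨⟨b1, b2⟩, b3, b4⟩ := hw
  simp only at a1 a2 a3 a4 b1 b2 b3 b4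
  have key : ∀ p q : Fin N, ((p : ℕ) : ℝ) * (Y / N) < (((q : ℕ) : ℝ) + 1) * (Y / N) →
      ((q : ℕ) : ℝ) * (Y / N) < (((p : ℕ) : ℝ) + 1) * (Y / N) → p = q := by
    intro p q h1 h2
    have h3 := lt_of_mul_lt_mul_right h1 hs.le
    have h4 := lt_of_mul_lt_mul_right h2 hs.le
    have h5 : (p : ℕ) < (q : ℕ) + 1 := by exact_mod_cast h3
    have h6 : (q : ℕ) < (p : ℕ) + 1 := by exact_mod_cast h4
    exact Fin.ext (by omega)
  have e1 := key a c (by linarith) (by linarith)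
  have e2 := key b d (by linarith) (by linarith)
  rw [e1, e2]

theorem gridOK_iff (A : Set ℍ) (Y : ℝ) (N : ℕ) : GridOK A Y N ↔
    ∀ ab : Fin N × Fin N, (A ∩ wbox Y N ab).encard = 1 := Iff.rfl

theorem measurableSet_gridOK (hQ : IsPoissonProcess P lam Q) (Y : ℝ) (N : ℕ) :
    MeasurableSet {ω | GridOK (Q ω) Y N} := by
  have e : {ω | GridOK (Q ω) Y N} =
      ⋂ ab : Fin N × Fin N, (fun ω => (Q ω ∩ wbox Y N ab).encard) ⁻¹' {1} := by
    ext ω
    simp [gridOK_iff]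
  rw [e]
  exact MeasurableSet.iInter fun ab =>
    hQ.measurable_count _ (measurableSet_wbox Y N ab) (measurableSet_singleton _)

theorem prob_biInter (hQ : IsPoissonProcess P lam Q) (hlam : 0 < lam) (N : ℕ) (S : Finset ℕ) :
    P (⋂ j ∈ S, {ω | GridOK (Q ω) ((2 : ℝ) ^ j) N}) =
      ∏ _j ∈ S, ∏ ab : Fin N × Fin N, ENNReal.ofReal (Real.exp (-mu lam N ab) * mu lam N ab) := by
  have h := indep_counts hQ (B := fun i : ℕ × (Fin N × Fin N) => wbox ((2 : ℝ) ^ i.1) N i.2)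
    (fun i => measurableSet_wbox _ _ _) (disjoint_wbox N) (S ×ˢ Finset.univ)
    (fun _ => {1}) (fun _ => measurableSet_singleton _)
  have e : (⋂ j ∈ S, {ω | GridOK (Q ω) ((2 : ℝ) ^ j) N}) =
      ⋂ i ∈ S ×ˢ (Finset.univ : Finset (Fin N × Fin N)),
        (fun ω => (Q ω ∩ wbox ((2 : ℝ) ^ i.1) N i.2).encard) ⁻¹' {1} := by
    ext ω
    simp only [Set.mem_iInter, Set.mem_ofPred_eq, Finset.mem_product, Finset.mem_univ, and_true,
      Set.mem_preimage, Set.mem_singleton_iff, gridOK_iff]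
    constructor
    · intro h i hi
      exact h i.1 hi i.2
    · intro h j hj ab
      exact h (j, ab) hj
  rw [e, h, Finset.prod_product]
  refine Finset.prod_congr rfl fun j _ => Finset.prod_congr rfl fun ab _ => ?_
  exact prob_one_point hQ (by positivity) hlam N ab

theorem ae_gridOK [IsProbabilityMeasure P] (hQ : IsPoissonProcess P lam Q) (hlam : 0 < lam)
    (N : ℕ) : ∀ᵐ ω ∂P, ∃ Y : ℝ, 0 < Y ∧ GridOK (Q ω) Y N := by
  set p : ℝ≥0∞ := ∏ ab : Fin N × Fin N,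
    ENNReal.ofReal (Real.exp (-mu lam N ab) * mu lam N ab) with hp
  have hone : ∀ j : ℕ, P {ω | GridOK (Q ω) ((2 : ℝ) ^ j) N} = p := by
    intro j
    have := prob_biInter hQ hlam N {j}
    simpa using this
  have hp0 : p ≠ 0 := by
    rw [hp, Finset.prod_ne_zero_iff]
    intro ab _
    have := mu_pos hlam ab
    exact (ENNReal.ofReal_pos.mpr (by positivity)).ne'
  have hmeas : ∀ j : ℕ, MeasurableSet {ω | GridOK (Q ω) ((2 : ℝ) ^ j) N} := fun j =>
    measurableSet_gridOK hQ _ N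
  have hind : ProbabilityTheory.iIndepSet (fun j : ℕ => {ω | GridOK (Q ω) ((2 : ℝ) ^ j) N}) P := by
    rw [ProbabilityTheory.iIndepSet_iff_meas_biInter hmeas]
    intro S
    rw [prob_biInter hQ hlam N S]
    exact Finset.prod_congr rfl fun j _ => (hone j).symm
  have hsum : (∑' j : ℕ, P {ω | GridOK (Q ω) ((2 : ℝ) ^ j) N}) = ∞ := by
    simp_rw [hone]
    exact ENNReal.tsum_const_eq_top_of_ne_zero hp0
  have hlim := ProbabilityTheory.measure_limsup_eq_one hmeas hind hsum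
  have hmeas2 : MeasurableSet (Filter.limsup (fun j : ℕ => {ω | GridOK (Q ω) ((2 : ℝ) ^ j) N})
      Filter.atTop) := MeasurableSet.measurableSet_limsup hmeas
  have hae : ∀ᵐ ω ∂P, ω ∈ Filter.limsup (fun j : ℕ => {ω | GridOK (Q ω) ((2 : ℝ) ^ j) N})
      Filter.atTop := by
    rw [← prob_compl_eq_zero_iff hmeas2] at hlim
    exact hlim
  filter_upwards [hae] with ω hω
  rw [Filter.limsup_eq_iInf_iSup_of_nat] at hω
  simp only [Set.iInf_eq_iInter, Set.iSup_eq_iUnion, Set.mem_iInter, Set.mem_iUnion] at hω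
  obtain ⟨j, _, hj⟩ := hω 0
  exact ⟨2 ^ j, by positivity, hj⟩

/-- the main theorem -/
theorem not_thin [IsProbabilityMeasure P] (hQ : IsPoissonProcess P lam Q) (hlam : 0 < lam) :
    ∀ᵐ ω ∂P, (Q ω).Nonempty ∧ (voronoiGraph (Q ω)).Connected ∧
      ∀ (x : Q ω) (δ : ℝ), ¬ AnchoredThin (voronoiGraph (Q ω)) x δ := by
  have hall : ∀ᵐ ω ∂P, ∀ n : ℕ, ∃ Y : ℝ, 0 < Y ∧ GridOK (Q ω) Y (2 ^ n) :=
    ae_all_iff.mpr fun n => ae_gridOK hQ hlam (2 ^ n)
  filter_upwards [ae_locFin hQ hlam, ae_nonempty hQ hlam, hall] with ω h1 h2 h3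
  have hc := connected_of_locFin h1 h2
  exact ⟨h2, hc, fun x δ => not_anchoredThin h1 h2 h3 hc x δ⟩

end

end Pool.Agent.Y979.HT
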