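import Pool.Agent.Y979.HV.Bounds

/-!
# Walks through the cells that meet a Euclidean rectangle
-/

set_option autoImplicit false

open UpperHalfPlane Real Pool.Agent.Y979.HV

namespace Pool.Agent.Y979.HT

noncomputable section

/-- an open Euclidean rectangle -/
def rect (a b c d : ℝ) : Set ℍ := {z | (a < z.re ∧ z.re < b) ∧ (c < z.im ∧ z.im < d)}

theorem isOpen_rect (a b c d : ℝ) : IsOpen (rect a b c d) := by
  have h1 : Continuous fun z : ℍ => z.re := UpperHalfPlane.continuous_re
  have h2 : Continuous fun z : ℍ => z.im := UpperHalfPlane.continuous_im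
  have e : rect a b c d = ((fun z : ℍ => z.re) ⁻¹' Set.Ioo a b) ∩ ((fun z : ℍ => z.im) ⁻¹' Set.Ioo c d) := by
    ext z; simp [rect]
  rw [e]
  exact (isOpen_Ioo.preimage h1).inter (isOpen_Ioo.preimage h2)

theorem rect_diff_preconnected {a b c d : ℝ} (hab : a < b) (hc : 0 ≤ c) (hcd : c < d) {B : Set ℍ}
    (hB : B.Finite) : IsPreconnected (rect a b c d \ B) := by
  obtain ⟨g, hg, hgi, hgr⟩ := exists_arc hab
  obtain ⟨f, hf, hfi, hfr⟩ := exists_arc hcd
  have hgm : ∀ u, g u ∈ Set.Ioo a b := fun u => hgr ▸ Set.mem_range_self u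
  have hfm : ∀ u, f u ∈ Set.Ioo c d := fun u => hfr ▸ Set.mem_range_self u
  have hfp : ∀ u, 0 < f u := fun u => hc.trans_lt (hfm u).1
  let Φ : ℝ × ℝ → ℍ := fun p => ⟨⟨g p.1, f p.2⟩, hfp p.2⟩
  have hΦc : Continuous Φ := by
    have h1 : Continuous fun p : ℝ × ℝ => g p.1 := hg.comp continuous_fst
    have h2 : Continuous fun p : ℝ × ℝ => f p.2 := hf.comp continuous_snd
    refine UpperHalfPlane.isEmbedding_coe.continuous_iff.mpr ?_
    have h4 : (UpperHalfPlane.coe ∘ Φ) = fun p : ℝ × ℝ =>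
        ((g p.1 : ℝ) : ℂ) + ((f p.2 : ℝ) : ℂ) * Complex.I := by
      funext p
      apply Complex.ext
      · simp [Φ]
      · simp [Φ]
    rw [h4]
    exact (Complex.continuous_ofReal.comp h1).add
      ((Complex.continuous_ofReal.comp h2).mul continuous_const)
  have hΦi : Function.Injective Φ := by
    intro p q h
    have h1 : g p.1 = g q.1 := congrArg UpperHalfPlane.re h
    have h2 : f p.2 = f q.2 := congrArg UpperHalfPlane.im h
    exact Prod.ext (hgi h1) (hfi h2)
  have hΦr : Set.range Φ = rect a b c d := by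
    ext z
    constructor
    · rintro ⟨p, rfl⟩
      exact ⟨hgm p.1, hfm p.2⟩
    · rintro ⟨h1, h2⟩
      have m1 : z.re ∈ Set.range g := by rw [hgr]; exact h1
      have m2 : z.im ∈ Set.range f := by rw [hfr]; exact h2
      obtain ⟨u, hu⟩ := m1
      obtain ⟨v, hv⟩ := m2
      refine ⟨(u, v), ?_⟩
      apply UpperHalfPlane.ext
      apply Complex.ext
      · exact hu
      · exact hv
  have himg : rect a b c d \ B = Φ '' (Φ ⁻¹' B)ᶜ := by
    rw [← hΦr]
    ext z
    constructor
    · rintro ⟨⟨p, rfl⟩, h⟩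
      exact ⟨p, h, rfl⟩
    · rintro ⟨p, h, rfl⟩
      exact ⟨⟨p, rfl⟩, h⟩
  rw [himg]
  have hcount : (Φ ⁻¹' B).Countable := (hB.preimage hΦi.injOn).countable
  have hrank : 1 < Module.rank ℝ (ℝ × ℝ) := by
    rw [rank_prod', Module.rank_self, one_add_one_eq_two]
    exact Cardinal.one_lt_two
  exact (hcount.isConnected_compl_of_one_lt_rank hrank).isPreconnected.image Φ hΦc.continuousOn

/-- a walk all of whose vertices belong to cells that meet `U` -/
theorem exists_walk_support {A : Set ℍ} (hA : LocFin A) {U : Set ℍ} (hU : IsOpen U)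
    (hUc : ∀ B : Set ℍ, B.Finite → IsPreconnected (U \ B)) (hF : (meeting A U).Finite)
    {x y : A} (hx : x ∈ meeting A U) (hy : y ∈ meeting A U) :
    ∃ p : (voronoiGraph A).Walk x y, p.length < (meeting A U).ncard ∧
      ∀ v ∈ p.support, v ∈ meeting A U := by
  obtain ⟨p, hp⟩ := (reachable_meeting hA hU hUc hF x y hx hy).exists_isPath
  have : Fintype (meeting A U) := hF.fintype
  have h1 := hp.length_lt
  rw [← Nat.card_eq_fintype_card] at h1
  refine ⟨p.map (SimpleGraph.Embedding.induce (meeting A U)).toHom,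
    lt_of_eq_of_lt (SimpleGraph.Walk.length_map _ _) h1, fun v hv => ?_⟩
  have hv' : v ∈ (p.map (SimpleGraph.Embedding.induce (G := voronoiGraph A)
    (meeting A U)).toHom).support := hv
  rw [SimpleGraph.Walk.support_map, List.mem_map] at hv'
  obtain ⟨w, _, rfl⟩ := hv'
  exact w.2

end

end Pool.Agent.Y979.HT
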